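import Pool.Agent.Helper212.CohenE.Defs

/-!
Infinitary sentences in the vocabulary with one binary relation symbol `E` and unary relation
symbols `P n`, their models, and the amalgamation property in size `ℵ₁` evaluated inside a
transitive set `M`.
-/

namespace Pool.Agent.H30Z.AP

open CohenE ZFSet

/-- Formulas of `L_{ω₁,ω}` (de Bruijn variables) in the vocabulary `{E} ∪ {P n : n ∈ ℕ}`:
equality, `E`, `P n`, negation, binary and countable conjunction, existential quantifier. -/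
inductive IFml : Type
  | eq (i j : ℕ) : IFml
  | edge (i j : ℕ) : IFml
  | pred (n i : ℕ) : IFml
  | neg (φ : IFml) : IFml
  | and (φ ψ : IFml) : IFml
  | conj (f : ℕ → IFml) : IFml
  | ex (φ : IFml) : IFml

/-- All free variables of the formula have index `< k`. `Closed 0 φ` says `φ` is a sentence. -/
def Closed : ℕ → IFml → Prop
  | k, .eq i j => i < k ∧ j < k
  | k, .edge i j => i < k ∧ j < k
  | k, .pred _ i => i < k
  | k, .neg φ => Closed k φ
  | k, .and φ ψ => Closed k φ ∧ Closed k ψ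
  | k, .conj f => ∀ n, Closed k (f n)
  | k, .ex φ => Closed (k + 1) φ

/-- The formula as a hereditarily countable set. -/
noncomputable def code : IFml → ZFSet.{0}
  | .eq i j => pair (nat 0) (pair (nat i) (nat j))
  | .edge i j => pair (nat 1) (pair (nat i) (nat j))
  | .pred n i => pair (nat 2) (pair (nat n) (nat i))
  | .neg φ => pair (nat 3) (code φ)
  | .and φ ψ => pair (nat 4) (pair (code φ) (code ψ))
  | .conj f => pair (nat 5) (range fun n : ℕ => pair (nat n) (code (f n)))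
  | .ex φ => pair (nat 6) (code φ)

/-- A structure: universe `A`, interpretation `E` of the binary symbol, and the set `P` of the
pairs `(n, x)` such that `P n` holds of `x`. -/
structure Str where
  A : ZFSet.{0}
  E : ZFSet.{0}
  P : ZFSet.{0}

/-- The universe is nonempty, `E ⊆ A × A` and `P ⊆ ω × A`. -/
def Str.Wf (S : Str) : Prop := S.A ≠ ∅ ∧ S.E ⊆ prod S.A S.A ∧ S.P ⊆ prod omega S.A

/-- The structure is an element of `M`. -/
def Str.In (M : Set ZFSet.{0}) (S : Str) : Prop := S.A ∈ M ∧ S.E ∈ M ∧ S.P ∈ M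

/-- Satisfaction of an infinitary formula in the structure `S` under the assignment `v`. -/
def ISat (S : Str) : (ℕ → ZFSet.{0}) → IFml → Prop
  | v, .eq i j => v i = v j
  | v, .edge i j => pair (v i) (v j) ∈ S.E
  | v, .pred n i => pair (nat n) (v i) ∈ S.P
  | v, .neg φ => ¬ ISat S v φ
  | v, .and φ ψ => ISat S v φ ∧ ISat S v ψ
  | v, .conj f => ∀ n, ISat S v (f n)
  | v, .ex φ => ∃ a, a ∈ S.A ∧ ISat S (scons a v) φ

/-- `S` is a structure satisfying the sentence `φ` (the assignment plays no role). -/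
def Models (S : Str) (φ : IFml) : Prop := S.Wf ∧ ISat S (fun _ => ∅) φ

/-- `f` is an injective function from `a` to `b`. -/
def IsInj (f a b : ZFSet.{0}) : Prop :=
  IsFunc a b f ∧ ∀ x x' y, pair x y ∈ f → pair x' y ∈ f → x = x'

/-- `f` is a bijection from `a` onto `b`. -/
def IsBij (f a b : ZFSet.{0}) : Prop := IsInj f a b ∧ ∀ y ∈ b, ∃ x, pair x y ∈ f

/-- `a` is countable in `M`. -/
def CtbleIn (M : Set ZFSet.{0}) (a : ZFSet.{0}) : Prop := ∃ f ∈ M, IsInj f a omega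

/-- `w` is the `ω₁` of `M`: the least ordinal of `M` that is uncountable in `M`. -/
def IsOmega1 (M : Set ZFSet.{0}) (w : ZFSet.{0}) : Prop :=
  w ∈ M ∧ w.IsOrdinal ∧ ¬ CtbleIn M w ∧ ∀ x ∈ w, CtbleIn M x

/-- `a` has size `ℵ₁` in `M`. -/
def SizeAleph1 (M : Set ZFSet.{0}) (a : ZFSet.{0}) : Prop :=
  ∃ w, IsOmega1 M w ∧ ∃ f ∈ M, IsBij f a w

/-- `S` is a substructure of `T`. -/
def Sub (S T : Str) : Prop :=
  S.A ⊆ T.A ∧ (∀ x ∈ S.A, ∀ y ∈ S.A, pair x y ∈ S.E ↔ pair x y ∈ T.E) ∧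
    ∀ n, ∀ x ∈ S.A, pair (nat n) x ∈ S.P ↔ pair (nat n) x ∈ T.P

/-- `f` is an embedding of `S` into `T` (an isomorphism onto a substructure). -/
def IsEmb (f : ZFSet.{0}) (S T : Str) : Prop :=
  IsInj f S.A T.A ∧
    (∀ x y x' y', pair x x' ∈ f → pair y y' ∈ f → (pair x y ∈ S.E ↔ pair x' y' ∈ T.E)) ∧
    ∀ n x x', pair x x' ∈ f → (pair (nat n) x ∈ S.P ↔ pair (nat n) x' ∈ T.P)

/-- `S` is, in `M`, a model of `φ` of size `ℵ₁`. -/
def Mod1 (M : Set ZFSet.{0}) (φ : IFml) (S : Str) : Prop :=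
  S.In M ∧ Models S φ ∧ SizeAleph1 M S.A

/-- `M ⊨ ℵ₁ ∈ AP-spec(φ)`: in `M`, `φ` has a model of size `ℵ₁`, and its models of size `ℵ₁`
have the amalgamation property (under the substructure relation). -/
def Aleph1InSpec (M : Set ZFSet.{0}) (φ : IFml) : Prop :=
  (∃ S, Mod1 M φ S) ∧
    ∀ S₀ S₁ S₂, Mod1 M φ S₀ → Mod1 M φ S₁ → Mod1 M φ S₂ → Sub S₀ S₁ → Sub S₀ S₂ →
      ∃ N, Mod1 M φ N ∧ ∃ f₁ ∈ M, ∃ f₂ ∈ M, IsEmb f₁ S₁ N ∧ IsEmb f₂ S₂ N ∧
        ∀ x ∈ S₀.A, ∀ y, pair x y ∈ f₁ ↔ pair x y ∈ f₂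

end Pool.Agent.H30Z.AP
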