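import Pool.Agent.H30Z.AP.Defs
import Pool.Agent.H30Z.Forc.Ground

/-! The sentence, and its amalgamation property inside an arbitrary countable transitive model. -/

namespace Pool.Agent.H30Z.AP

open CohenE ZFSet Forc

/-- `P n r ↔ P n s` -/
def iffF (n : ℕ) : IFml :=
  .and (.neg (.and (.pred n 1) (.neg (.pred n 0)))) (.neg (.and (.pred n 0) (.neg (.pred n 1))))

/-- for all `a, b` there is `r` whose type differs from the type of every `s` with `E a s` and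
`E s b` -/
def phi0 : IFml :=
  .neg (.ex (.ex (.neg (.ex (.neg (.ex (.and (.edge 3 0) (.and (.edge 0 2) (.conj iffF)))))))))

theorem phi0_closed : Closed 0 phi0 := by
  simp [phi0, Closed, iffF]

theorem sat_phi0 (S : Str) (v : ℕ → ZFSet.{0}) : ISat S v phi0 ↔
    ∀ a ∈ S.A, ∀ b ∈ S.A, ∃ r ∈ S.A, ∀ s ∈ S.A, pair a s ∈ S.E → pair s b ∈ S.E →
      ¬ ∀ n, (pair (nat n) r ∈ S.P ↔ pair (nat n) s ∈ S.P) := by
  simp only [phi0, iffF, ISat, scons, not_exists, not_and, not_not, not_forall]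
  refine forall_congr' fun a => imp_congr_right fun _ => forall_congr' fun b =>
    imp_congr_right fun _ => ?_
  constructor
  · rintro ⟨r, hr, h⟩
    refine ⟨r, hr, fun s hs h1 h2 => ?_⟩
    obtain ⟨n, hn⟩ := h s hs h1 h2
    refine ⟨n, fun hh => ?_⟩
    obtain ⟨h3, h4⟩ := hn hh.1
    exact h4 (hh.2 h3)
  · rintro ⟨r, hr, h⟩
    refine ⟨r, hr, fun s hs h1 h2 => ?_⟩
    obtain ⟨n, hn⟩ := h s hs h1 h2
    refine ⟨n, fun h3 => ?_⟩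
    by_contra h4
    exact hn ⟨h3, fun h5 => by_contra fun h6 => h4 ⟨h5, h6⟩⟩

variable {M : Set ZFSet.{0}}

theorem omega_mem (hM : CTM M) : ZFSet.omega ∈ M := by
  have : Fact (CTM M) := ⟨hM⟩
  have h : ((om : M) : ZFSet.{0}) = ZFSet.omega := by
    ext z
    rw [mem_omega]
    constructor
    · intro hz
      obtain ⟨n, hn⟩ := (mem_om ⟨z, hM.trans _ om.2 z hz⟩).1 hz
      exact ⟨n, Subtype.ext_iff.1 hn⟩
    · rintro ⟨n, rfl⟩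
      exact (mem_om (mnat n)).2 ⟨n, rfl⟩
  rw [← h]; exact om.2

theorem nat_mem_omega (n : ℕ) : nat n ∈ ZFSet.omega := mem_omega.2 ⟨n, rfl⟩

theorem code_mem (hM : CTM M) : code phi0 ∈ M := by
  have : Fact (CTM M) := ⟨hM⟩
  let pr : M → ℕ → M := fun z i => mpair (mnat 2) (mpair z (mnat i))
  let ng : M → M := fun z => mpair (mnat 3) z
  let an : M → M → M := fun y z => mpair (mnat 4) (mpair y z)
  let tm : M → M := fun z => mpair z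
    (an (ng (an (pr z 1) (ng (pr z 0)))) (ng (an (pr z 0) (ng (pr z 1)))))
  have hF : F M (fun p : M × M => tm p.1) := by
    simp only [tm, an, ng, pr]
    repeat first | apply F.pair | exact F.const _ | exact F.var (Γ := M × M) 1
  obtain ⟨b, hb⟩ := exists_repl (M := M) (G := fun z w => w = tm z) (D.eq F.snd hF) om
    (fun z _ => ⟨tm z, rfl, fun _ h => h⟩)
  have hb' : (b : ZFSet.{0}) = range fun n : ℕ => pair (nat n) (code (iffF n)) := by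
    ext z
    rw [mem_range]
    constructor
    · intro hz
      obtain ⟨y, hy, h⟩ := (hb ⟨z, hM.trans _ b.2 z hz⟩).1 hz
      obtain ⟨n, rfl⟩ := (mem_om y).1 hy
      exact ⟨n, (Subtype.ext_iff.1 h).symm⟩
    · rintro ⟨n, rfl⟩
      exact (hb (tm (mnat n))).2 ⟨mnat n, (mem_om _).2 ⟨n, rfl⟩, rfl⟩
  have hc : code (.conj iffF) ∈ M := pair_memM (nat_memM 5) (hb' ▸ b.2)
  simp only [phi0]
  repeat first | exact hc | exact nat_memM _ | apply pair_memM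

/-- two injections of `w` into itself with disjoint ranges that miss `z` -/
def Gad (w j0 j1 z : ZFSet.{0}) : Prop :=
  z ∈ w ∧ (∀ x ∈ w, ∃ y ∈ w, pair x y ∈ j0) ∧ (∀ x ∈ w, ∃ y ∈ w, pair x y ∈ j1) ∧
  (∀ x ∈ w, ∀ x' ∈ w, ∀ y ∈ w, ∀ y' ∈ w, pair x y ∈ j0 → pair x' y' ∈ j0 → (x = x' ↔ y = y')) ∧
  (∀ x ∈ w, ∀ x' ∈ w, ∀ y ∈ w, ∀ y' ∈ w, pair x y ∈ j1 → pair x' y' ∈ j1 → (x = x' ↔ y = y')) ∧
  (∀ x ∈ w, ∀ x' ∈ w, ∀ y ∈ w, pair x y ∈ j0 → pair x' y ∉ j1) ∧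
  ∀ x ∈ w, pair x z ∉ j0 ∧ pair x z ∉ j1

/-- all reals of `M` are sections of one relation on `w × ω` -/
def CHw (M : Set ZFSet.{0}) (w : ZFSet.{0}) : Prop :=
  ∃ T ∈ M, ∀ r ∈ M, r ⊆ ZFSet.omega → ∃ x ∈ w, ∀ n ∈ ZFSet.omega, (pair x n ∈ T ↔ n ∈ r)

theorem omega1_unique {w w' : ZFSet.{0}} (h : IsOmega1 M w) (h' : IsOmega1 M w') : w = w' := by
  rcases h.2.1.mem_trichotomous h'.2.1 with h1 | h1 | h1
  · exact absurd (h'.2.2.2 _ h1) h.2.2.1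
  · exact h1
  · exact absurd (h.2.2.2 _ h1) h'.2.2.1

theorem IsInj.exists_fun {f a b : ZFSet.{0}} (h : IsInj f a b) :
    ∃ g : ZFSet.{0} → ZFSet.{0}, (∀ x y, pair x y ∈ f ↔ x ∈ a ∧ y = g x) ∧ (∀ x ∈ a, g x ∈ b) ∧
      ∀ x ∈ a, ∀ x' ∈ a, g x = g x' → x = x' := by
  classical
  choose g hg hu using h.1.2
  have key : ∀ x y, pair x y ∈ f ↔ x ∈ a ∧ y = (if hx : x ∈ a then g x hx else ∅) := by
    intro x y
    constructor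
    · intro hxy
      have hx := (pair_mem_prod.1 (h.1.1 hxy)).1
      exact ⟨hx, by rw [dif_pos hx]; exact hu x hx y hxy⟩
    · rintro ⟨hx, rfl⟩
      rw [dif_pos hx]; exact hg x hx
  refine ⟨_, key, fun x hx => (pair_mem_prod.1 (h.1.1 ((key x _).2 ⟨hx, rfl⟩))).2,
    fun x hx x' hx' e => h.2 x x' _ ((key x _).2 ⟨hx, rfl⟩) ((key x' _).2 ⟨hx', e⟩)⟩

theorem isInj_of_fun {f a b : ZFSet.{0}} {g : ZFSet.{0} → ZFSet.{0}} (hf : f ⊆ prod a b)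
    (h : ∀ x y, pair x y ∈ f ↔ x ∈ a ∧ y = g x)
    (hi : ∀ x ∈ a, ∀ x' ∈ a, g x = g x' → x = x') : IsInj f a b := by
  refine ⟨⟨hf, fun x hx => ⟨g x, (h _ _).2 ⟨hx, rfl⟩, fun y hy => ((h _ _).1 hy).2⟩⟩, ?_⟩
  intro x x' y h1 h2
  rw [h] at h1 h2
  exact hi x h1.1 x' h2.1 (h1.2.symm.trans h2.2)

theorem exists_fun_of {w j : ZFSet.{0}} (h1 : ∀ x ∈ w, ∃ y ∈ w, pair x y ∈ j)
    (h2 : ∀ x ∈ w, ∀ x' ∈ w, ∀ y ∈ w, ∀ y' ∈ w, pair x y ∈ j → pair x' y' ∈ j →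
      (x = x' ↔ y = y')) :
    ∃ g : ZFSet.{0} → ZFSet.{0}, (∀ x ∈ w, ∀ y ∈ w, pair x y ∈ j ↔ y = g x) ∧
      (∀ x ∈ w, g x ∈ w) ∧ ∀ x ∈ w, ∀ x' ∈ w, g x = g x' → x = x' := by
  classical
  choose! g hg hg' using h1
  refine ⟨g, fun x hx y hy => ⟨fun h => (h2 x hx x hx y hy _ (hg x hx) h (hg' x hx)).1 rfl,
    fun h => h ▸ hg' x hx⟩, hg, fun x hx x' hx' e =>
      (h2 x hx x' hx' _ (hg x hx) _ (hg x' hx') (hg' x hx) (hg' x' hx')).2 e⟩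

theorem size_w (hM : CTM M) {w : ZFSet.{0}} (hw : IsOmega1 M w) : SizeAleph1 M w := by
  obtain ⟨c, hc, h1, h2⟩ := rel_mem hM (RD.eq 1 0) (v := zl []) (zl_mem hM (by simp)) hw.1 hw.1
  have h3 : ∀ x y, pair x y ∈ c ↔ x ∈ w ∧ y = id x := by
    intro x y
    rw [h2]
    exact ⟨fun h => ⟨h.1, h.2.2⟩, fun h => ⟨h.1, by rw [h.2]; exact h.1, h.2⟩⟩
  exact ⟨w, hw, c, hc, isInj_of_fun h1 h3 (fun _ _ _ _ h => h),
    fun y hy => ⟨y, (h3 _ _).2 ⟨hy, rfl⟩⟩⟩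

theorem exists_model (hM : CTM M) {w z : ZFSet.{0}} (hw : IsOmega1 M w) (hz : z ∈ w) :
    ∃ S, Mod1 M phi0 S := by
  have : Fact (CTM M) := ⟨hM⟩
  refine ⟨⟨w, ∅, ∅⟩, ⟨hw.1, empty_memM, empty_memM⟩, ⟨⟨?_, empty_subset _, empty_subset _⟩, ?_⟩,
    size_w hM hw⟩
  · rintro rfl; exact notMem_empty _ hz
  · rw [sat_phi0]
    intro a ha b _
    exact ⟨a, ha, fun s _ h => absurd h (notMem_empty _)⟩

theorem emb_side {S₀ S S' N : Str} {g : ZFSet.{0}} {G G' : ZFSet.{0} → ZFSet.{0}}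
    (hg : ∀ x y, pair x y ∈ g ↔ x ∈ S.A ∧ y = G x) (gsub : g ⊆ prod S.A N.A)
    (inj : ∀ x ∈ S.A, ∀ x' ∈ S.A, G x = G x' → x = x')
    (cross : ∀ x ∈ S.A, ∀ x' ∈ S'.A, G x = G' x' → x = x' ∧ x ∈ S₀.A)
    (h0 : Sub S₀ S) (h0' : Sub S₀ S')
    (hE : ∀ x ∈ S.A, ∀ y ∈ S.A, pair (G x) (G y) ∈ N.E ↔
      (∃ a ∈ S.A, ∃ b ∈ S.A, G x = G a ∧ G y = G b ∧ pair a b ∈ S.E) ∨
      (∃ a ∈ S'.A, ∃ b ∈ S'.A, G x = G' a ∧ G y = G' b ∧ pair a b ∈ S'.E))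
    (hP : ∀ n, ∀ x ∈ S.A, pair (nat n) (G x) ∈ N.P ↔
      (∃ a ∈ S.A, G x = G a ∧ pair (nat n) a ∈ S.P) ∨
      (∃ a ∈ S'.A, G x = G' a ∧ pair (nat n) a ∈ S'.P)) : IsEmb g S N := by
  refine ⟨isInj_of_fun gsub hg inj, ?_, ?_⟩
  · intro x y x' y' h1 h2
    obtain ⟨hx, rfl⟩ := (hg _ _).1 h1
    obtain ⟨hy, rfl⟩ := (hg _ _).1 h2
    rw [hE x hx y hy]
    refine ⟨fun h => Or.inl ⟨x, hx, y, hy, rfl, rfl, h⟩, ?_⟩
    rintro (⟨a, ha, b, hb, e1, e2, h⟩ | ⟨a, ha, b, hb, e1, e2, h⟩)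
    · rw [inj x hx a ha e1, inj y hy b hb e2]; exact h
    · obtain ⟨rfl, c1⟩ := cross x hx a ha e1
      obtain ⟨rfl, c2⟩ := cross y hy b hb e2
      exact (h0.2.1 x c1 y c2).1 ((h0'.2.1 x c1 y c2).2 h)
  · intro n x x' h1
    obtain ⟨hx, rfl⟩ := (hg _ _).1 h1
    rw [hP n x hx]
    refine ⟨fun h => Or.inl ⟨x, hx, rfl, h⟩, ?_⟩
    rintro (⟨a, ha, e1, h⟩ | ⟨a, ha, e1, h⟩)
    · rw [inj x hx a ha e1]; exact h
    · obtain ⟨rfl, c1⟩ := cross x hx a ha e1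
      exact (h0.2.2 n x c1).1 ((h0'.2.2 n x c1).2 h)

end Pool.Agent.H30Z.AP
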