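import Pool.Agent.H30Z.AP.Inside

/-! Inside a countable transitive model, amalgamation in size `ℵ₁` holds iff CH fails. -/

namespace Pool.Agent.H30Z.AP

open CohenE ZFSet Forc

variable {M : Set ZFSet.{0}}

theorem ap_of_not_ch (hM : CTM M) {w j0 j1 z : ZFSet.{0}} (hw : IsOmega1 M w)
    (hj0 : j0 ∈ M) (hj1 : j1 ∈ M) (hG : Gad w j0 j1 z) (hch : ¬ CHw M w) :
    Aleph1InSpec M phi0 := by
  classical
  obtain ⟨hz, g1, g2, g3, g4, g5, g6⟩ := hG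
  have hzM : z ∈ M := hM.trans _ hw.1 z hz
  refine ⟨exists_model hM hw hz, ?_⟩
  rintro S₀ S₁ S₂ ⟨⟨hA0, -, -⟩, -, -⟩ ⟨⟨hA1, hE1, hP1⟩, ⟨⟨-, wE1, wP1⟩, -⟩, w1, hw1, b1, hb1, b1b, -⟩
    ⟨⟨hA2, hE2, hP2⟩, ⟨⟨-, wE2, wP2⟩, -⟩, w2, hw2, b2, hb2, b2b, -⟩ h01 h02
  obtain rfl := omega1_unique hw hw1
  obtain rfl := omega1_unique hw hw2
  obtain ⟨β1, β1a, β1b, β1c⟩ := b1b.exists_fun
  obtain ⟨β2, β2a, β2b, β2c⟩ := b2b.exists_fun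
  obtain ⟨γ0, γ0a, γ0b, γ0c⟩ := exists_fun_of g1 g3
  obtain ⟨γ1, γ1a, γ1b, γ1c⟩ := exists_fun_of g2 g4
  have γne : ∀ x ∈ w, ∀ x' ∈ w, γ0 x ≠ γ1 x' := fun x hx x' hx' e =>
    g5 x hx x' hx' _ (γ0b x hx) ((γ0a x hx _ (γ0b x hx)).2 rfl)
      ((γ1a x' hx' _ (γ0b x hx)).2 e)
  have γ0z : ∀ x ∈ w, γ0 x ≠ z := fun x hx e => (g6 x hx).1 ((γ0a x hx z hz).2 e.symm)
  have γ1z : ∀ x ∈ w, γ1 x ≠ z := fun x hx e => (g6 x hx).2 ((γ1a x hx z hz).2 e.symm)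
  let G1 : ZFSet.{0} → ZFSet.{0} := fun x => γ0 (β1 x)
  let G2 : ZFSet.{0} → ZFSet.{0} := fun x => if x ∈ S₀.A then G1 x else γ1 (β2 x)
  have G1w : ∀ x ∈ S₁.A, G1 x ∈ w := fun x hx => γ0b _ (β1b x hx)
  have G2w : ∀ x ∈ S₂.A, G2 x ∈ w := by
    intro x hx
    simp only [G2]
    split_ifs with h
    · exact G1w x (h01.1 h)
    · exact γ1b _ (β2b x hx)
  have G1z : ∀ x ∈ S₁.A, G1 x ≠ z := fun x hx => γ0z _ (β1b x hx)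
  have G2z : ∀ x ∈ S₂.A, G2 x ≠ z := by
    intro x hx
    simp only [G2]
    split_ifs with h
    · exact G1z x (h01.1 h)
    · exact γ1z _ (β2b x hx)
  have inj1 : ∀ x ∈ S₁.A, ∀ x' ∈ S₁.A, G1 x = G1 x' → x = x' := fun x hx x' hx' e =>
    β1c x hx x' hx' (γ0c _ (β1b x hx) _ (β1b x' hx') e)
  have cross : ∀ x ∈ S₁.A, ∀ x' ∈ S₂.A, G1 x = G2 x' → x = x' ∧ x ∈ S₀.A := by
    intro x hx x' hx' e
    simp only [G2] at e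
    split_ifs at e with h
    · have := inj1 x hx x' (h01.1 h) e
      exact ⟨this, this ▸ h⟩
    · exact absurd e (γne _ (β1b x hx) _ (β2b x' hx'))
  have inj2 : ∀ x ∈ S₂.A, ∀ x' ∈ S₂.A, G2 x = G2 x' → x = x' := by
    intro x hx x' hx' e
    by_cases h : x ∈ S₀.A
    · have : G1 x = G2 x' := by rw [← e]; simp only [G2, if_pos h]
      exact (cross x (h01.1 h) x' hx' this).1
    · by_cases h' : x' ∈ S₀.A
      · have : G1 x' = G2 x := by rw [e]; simp only [G2, if_pos h']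
        exact (cross x' (h01.1 h') x hx this).1.symm
      · simp only [G2, if_neg h, if_neg h'] at e
        exact β2c x hx x' hx' (γ1c _ (β2b x hx) _ (β2b x' hx') e)
  -- the embeddings
  obtain ⟨f1, hf1, f1s, f1a⟩ := rel_mem hM (RD.bex 2 ((RD.app 1 0 4).and (RD.app 0 2 5)))
    (v := zl [w, b1, j0]) (zl_mem hM (by simp [hw.1, hb1, hj0])) hA1 hw.1
  have f1b : ∀ x y, pair x y ∈ f1 ↔ x ∈ S₁.A ∧ y = G1 x := by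
    intro x y
    rw [f1a]
    constructor
    · rintro ⟨h1, h2, u, hu, h3, h4⟩
      obtain ⟨-, rfl⟩ := (β1a x u).1 h3
      exact ⟨h1, (γ0a _ hu y h2).1 h4⟩
    · rintro ⟨h1, rfl⟩
      exact ⟨h1, G1w x h1, β1 x, β1b x h1, (β1a _ _).2 ⟨h1, rfl⟩,
        (γ0a _ (β1b x h1) _ (G1w x h1)).2 rfl⟩
  obtain ⟨f2, hf2, f2s, f2a⟩ := rel_mem hM (((RD.mem 0 5).and (RD.app 0 1 6)).or
    ((RD.mem 0 5).not.and (RD.bex 2 ((RD.app 1 0 4).and (RD.app 0 2 5)))))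
    (v := zl [w, b2, j1, S₀.A, f1]) (zl_mem hM (by simp [hw.1, hb2, hj1, hA0, hf1])) hA2 hw.1
  have f2b : ∀ x y, pair x y ∈ f2 ↔ x ∈ S₂.A ∧ y = G2 x := by
    intro x y
    rw [f2a]
    constructor
    · rintro ⟨h1, h2, ⟨h3, h4⟩ | ⟨h3, u, hu, h4, h5⟩⟩
      · have h3' : x ∈ S₀.A := h3
        exact ⟨h1, by simp only [G2, if_pos h3']; exact ((f1b x y).1 h4).2⟩
      · have h3' : x ∉ S₀.A := h3
        obtain ⟨-, rfl⟩ := (β2a x u).1 h4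
        exact ⟨h1, by simp only [G2, if_neg h3']; exact (γ1a _ hu y h2).1 h5⟩
    · rintro ⟨h1, rfl⟩
      refine ⟨h1, G2w x h1, ?_⟩
      by_cases h : x ∈ S₀.A
      · have e : G2 x = G1 x := if_pos h
        have e' : pair x (G2 x) ∈ f1 := (f1b _ _).2 ⟨h01.1 h, e⟩
        exact Or.inl ⟨h, e'⟩
      · have e : G2 x = γ1 (β2 x) := if_neg h
        have e' : pair (β2 x) (G2 x) ∈ j1 := (γ1a _ (β2b x h1) _ (G2w x h1)).2 e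
        exact Or.inr ⟨h, β2 x, β2b x h1, (β2a _ _).2 ⟨h1, rfl⟩, e'⟩
  -- the edges
  obtain ⟨E', hE', E's, E'a⟩ := rel_mem hM
    ((RD.bex 2 (RD.bex 3 ((RD.app 1 2 5).and ((RD.app 0 3 5).and (RD.app 1 0 6))))).or
      (RD.bex 5 (RD.bex 6 ((RD.app 1 2 8).and ((RD.app 0 3 8).and (RD.app 1 0 9))))))
    (v := zl [S₁.A, f1, S₁.E, S₂.A, f2, S₂.E])
    (zl_mem hM (by simp [hA1, hf1, hE1, hA2, hf2, hE2])) hw.1 hw.1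
  have E'b : ∀ u ∈ w, ∀ t ∈ w, pair u t ∈ E' ↔
      (∃ a ∈ S₁.A, ∃ b ∈ S₁.A, u = G1 a ∧ t = G1 b ∧ pair a b ∈ S₁.E) ∨
      (∃ a ∈ S₂.A, ∃ b ∈ S₂.A, u = G2 a ∧ t = G2 b ∧ pair a b ∈ S₂.E) := by
    intro u hu t ht
    rw [E'a]
    constructor
    · rintro ⟨-, -, ⟨a, ha, b, hb, h1, h2, h3⟩ | ⟨a, ha, b, hb, h1, h2, h3⟩⟩
      · exact Or.inl ⟨a, ha, b, hb, ((f1b _ _).1 h1).2, ((f1b _ _).1 h2).2, h3⟩
      · exact Or.inr ⟨a, ha, b, hb, ((f2b _ _).1 h1).2, ((f2b _ _).1 h2).2, h3⟩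
    · rintro (⟨a, ha, b, hb, h1, h2, h3⟩ | ⟨a, ha, b, hb, h1, h2, h3⟩)
      · exact ⟨hu, ht, Or.inl ⟨a, ha, b, hb, (f1b _ _).2 ⟨ha, h1⟩, (f1b _ _).2 ⟨hb, h2⟩, h3⟩⟩
      · exact ⟨hu, ht, Or.inr ⟨a, ha, b, hb, (f2b _ _).2 ⟨ha, h1⟩, (f2b _ _).2 ⟨hb, h2⟩, h3⟩⟩
  -- the types
  obtain ⟨T, hT, -, Ta⟩ := rel_mem hM
    ((RD.bex 2 ((RD.app 0 1 4).and (RD.app 2 0 5))).or
      (RD.bex 5 ((RD.app 0 1 7).and (RD.app 2 0 8))))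
    (v := zl [S₁.A, f1, S₁.P, S₂.A, f2, S₂.P])
    (zl_mem hM (by simp [hA1, hf1, hP1, hA2, hf2, hP2])) hw.1 (omega_mem hM)
  have Tb : ∀ u ∈ w, ∀ n ∈ ZFSet.omega, pair u n ∈ T ↔
      (∃ a ∈ S₁.A, u = G1 a ∧ pair n a ∈ S₁.P) ∨ (∃ a ∈ S₂.A, u = G2 a ∧ pair n a ∈ S₂.P) := by
    intro u hu n hn
    rw [Ta]
    constructor
    · rintro ⟨-, -, ⟨a, ha, h1, h2⟩ | ⟨a, ha, h1, h2⟩⟩
      · exact Or.inl ⟨a, ha, ((f1b _ _).1 h1).2, h2⟩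
      · exact Or.inr ⟨a, ha, ((f2b _ _).1 h1).2, h2⟩
    · rintro (⟨a, ha, h1, h2⟩ | ⟨a, ha, h1, h2⟩)
      · exact ⟨hu, hn, Or.inl ⟨a, ha, (f1b _ _).2 ⟨ha, h1⟩, h2⟩⟩
      · exact ⟨hu, hn, Or.inr ⟨a, ha, (f2b _ _).2 ⟨ha, h1⟩, h2⟩⟩
  simp only [CHw, not_exists, not_and, not_forall] at hch
  obtain ⟨r, hr, hrω, hrT⟩ := hch T hT
  obtain ⟨P', hP', P's, P'a⟩ := rel_mem hM
    ((RD.app 1 0 2).or ((RD.eq 1 3).and (RD.mem 0 4)))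
    (v := zl [T, z, r]) (zl_mem hM (by simp [hT, hzM, hr])) (omega_mem hM) hw.1
  have P'b : ∀ n ∈ ZFSet.omega, ∀ u ∈ w, u ≠ z → (pair n u ∈ P' ↔ pair u n ∈ T) := by
    intro n hn u hu huz
    rw [P'a]
    exact ⟨fun h => h.2.2.resolve_right fun hh => huz hh.1, fun h => ⟨hn, hu, Or.inl h⟩⟩
  have P'z : ∀ n ∈ ZFSet.omega, (pair n z ∈ P' ↔ n ∈ r) := by
    intro n hn
    rw [P'a]
    refine ⟨fun h => (h.2.2.resolve_left fun hh => ?_).2, fun h => ⟨hn, hz, Or.inr ⟨rfl, h⟩⟩⟩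
    rcases (Tb z hz n hn).1 hh with ⟨a, ha, e, -⟩ | ⟨a, ha, e, -⟩
    · exact G1z a ha e.symm
    · exact G2z a ha e.symm
  refine ⟨⟨w, E', P'⟩, ⟨⟨hw.1, hE', hP'⟩, ⟨⟨?_, E's, P's⟩, ?_⟩, size_w hM hw⟩, f1, hf1, f2, hf2,
    ?_, ?_, ?_⟩
  · rintro rfl; exact notMem_empty _ hz
  · rw [sat_phi0]
    intro a ha b _
    refine ⟨z, hz, fun s hs h1 _ h3 => ?_⟩
    have hsz : s ≠ z := by
      rcases (E'b a ha s hs).1 h1 with ⟨_, _, c, hc, -, e, -⟩ | ⟨_, _, c, hc, -, e, -⟩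
      · rw [e]; exact G1z c hc
      · rw [e]; exact G2z c hc
    obtain ⟨n, hn, hh⟩ := hrT s hs
    obtain ⟨k, rfl⟩ := mem_omega.1 hn
    exact hh (((P'b _ hn s hs hsz).symm.trans (h3 k).symm).trans (P'z _ hn))
  · refine emb_side (S' := S₂) (G' := G2) f1b f1s inj1 cross h01 h02
      (fun x hx y hy => E'b _ (G1w x hx) _ (G1w y hy)) (fun n x hx => ?_)
    exact (P'b _ (nat_mem_omega n) _ (G1w x hx) (G1z x hx)).trans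
      (Tb _ (G1w x hx) _ (nat_mem_omega n))
  · refine emb_side (S' := S₁) (G' := G1) f2b f2s inj2 (fun x hx x' hx' e => ?_) h02 h01
      (fun x hx y hy => (E'b _ (G2w x hx) _ (G2w y hy)).trans or_comm) (fun n x hx => ?_)
    · obtain ⟨rfl, h⟩ := cross x' hx' x hx e.symm
      exact ⟨rfl, h⟩
    · exact ((P'b _ (nat_mem_omega n) _ (G2w x hx) (G2z x hx)).trans
        (Tb _ (G2w x hx) _ (nat_mem_omega n))).trans or_comm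
  · intro x hx y
    rw [f1b, f2b]
    simp only [G2, if_pos hx, h01.1 hx, h02.1 hx]

theorem not_ap_of_ch (hM : CTM M) {w j0 j1 z : ZFSet.{0}} (hw : IsOmega1 M w)
    (hj0 : j0 ∈ M) (hG : Gad w j0 j1 z) (hch : CHw M w) : ¬ Aleph1InSpec M phi0 := by
  have : Fact (CTM M) := ⟨hM⟩
  obtain ⟨hz, g1, -, g3, -, -, g6⟩ := hG
  have hzM : z ∈ M := hM.trans _ hw.1 z hz
  obtain ⟨γ, γa, γb, γc⟩ := exists_fun_of g1 g3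
  have γz : ∀ x ∈ w, γ x ≠ z := fun x hx e => (g6 x hx).1 ((γa x hx z hz).2 e.symm)
  obtain ⟨T, hT, hT'⟩ := hch
  obtain ⟨A0, hA0, A0a⟩ := sep_mem hM (RD.bex 1 (RD.app 0 1 3)) (v := zl [w, j0])
    (zl_mem hM (by simp [hw.1, hj0])) hw.1
  have A0b : ∀ y, y ∈ A0 ↔ ∃ x ∈ w, y = γ x := by
    intro y
    rw [A0a]
    constructor
    · rintro ⟨h1, x, hx, h2⟩
      exact ⟨x, hx, (γa x hx y h1).1 h2⟩
    · rintro ⟨x, hx, rfl⟩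
      exact ⟨γb x hx, x, hx, (γa x hx _ (γb x hx)).2 rfl⟩
  have A0w : A0 ⊆ w := fun y hy => ((A0a y).1 hy).1
  have zA0 : z ∉ A0 := fun h => by
    obtain ⟨x, hx, e⟩ := (A0b z).1 h
    exact γz x hx e.symm
  obtain ⟨Q, hQ, Qs, Qa⟩ := rel_mem hM (RD.bex 2 ((RD.app 0 2 4).and (RD.app 0 1 5)))
    (v := zl [w, j0, T]) (zl_mem hM (by simp [hw.1, hj0, hT])) (omega_mem hM) hA0
  have Qb : ∀ n ∈ ZFSet.omega, ∀ x ∈ w, pair n (γ x) ∈ Q ↔ pair x n ∈ T := by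
    intro n hn x hx
    rw [Qa]
    constructor
    · rintro ⟨-, -, u, hu, h1, h2⟩
      rw [γc x hx u hu ((γa u hu _ (γb x hx)).1 h1)]
      exact h2
    · intro h
      exact ⟨hn, (A0b _).2 ⟨x, hx, rfl⟩, x, hx, (γa x hx _ (γb x hx)).2 rfl, h⟩
  have Qs' : Q ⊆ prod ZFSet.omega w := by
    intro y hy
    obtain ⟨a, ha, b, hb, rfl⟩ := mem_prod.1 (Qs hy)
    exact pair_mem_prod.2 ⟨ha, A0w hb⟩
  obtain ⟨s, hs, ss, sa⟩ := rel_mem hM (RD.app 1 0 2) (v := zl [j0])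
    (zl_mem hM (by simp [hj0])) hA0 hw.1
  have hsz : SizeAleph1 M A0 := by
    refine ⟨w, hw, s, hs, ⟨⟨ss, fun y hy => ?_⟩, fun y y' x h1 h2 => ?_⟩, fun x hx => ?_⟩
    · obtain ⟨x, hx, rfl⟩ := (A0b y).1 hy
      refine ⟨x, (sa _ _).2 ⟨hy, hx, (γa x hx _ (γb x hx)).2 rfl⟩, fun x' h => ?_⟩
      obtain ⟨-, h1, h2⟩ := (sa _ _).1 h
      exact (γc x hx x' h1 ((γa x' h1 _ (γb x hx)).1 h2)).symm
    · obtain ⟨a1, a2, a3⟩ := (sa _ _).1 h1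
      obtain ⟨b1, -, b3⟩ := (sa _ _).1 h2
      exact ((γa x a2 y (A0w a1)).1 a3).trans ((γa x a2 y' (A0w b1)).1 b3).symm
    · exact ⟨γ x, (sa _ _).2 ⟨(A0b _).2 ⟨x, hx, rfl⟩, hx, (γa x hx _ (γb x hx)).2 rfl⟩⟩
  have hwne : w ≠ ∅ := by rintro rfl; exact notMem_empty _ hz
  have hA0ne : A0 ≠ ∅ := by
    intro h
    have := (A0b _).2 ⟨z, hz, rfl⟩
    rw [h] at this
    exact notMem_empty _ this
  have zs : ({z} : ZFSet.{0}) ∈ M := single_memM hzM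
  have m0 : Mod1 M phi0 ⟨A0, ∅, Q⟩ := by
    refine ⟨⟨hA0, empty_memM, hQ⟩, ⟨⟨hA0ne, empty_subset _, Qs⟩, ?_⟩, hsz⟩
    rw [sat_phi0]
    intro a ha b _
    exact ⟨a, ha, fun s _ h => absurd h (notMem_empty _)⟩
  have m1 : Mod1 M phi0 ⟨w, prod {z} A0, Q⟩ := by
    refine ⟨⟨hw.1, prod_mem hM zs hA0, hQ⟩, ⟨⟨hwne, ?_, Qs'⟩, ?_⟩, size_w hM hw⟩
    · intro y hy
      obtain ⟨a, ha, b, hb, rfl⟩ := mem_prod.1 hy
      exact pair_mem_prod.2 ⟨by rw [mem_singleton.1 ha]; exact hz, A0w hb⟩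
    · rw [sat_phi0]
      intro a ha b _
      refine ⟨a, ha, fun s _ h1 h2 => absurd (pair_mem_prod.1 h1).2 ?_⟩
      rw [mem_singleton.1 (pair_mem_prod.1 h2).1]; exact zA0
  have m2 : Mod1 M phi0 ⟨w, prod A0 {z}, Q⟩ := by
    refine ⟨⟨hw.1, prod_mem hM hA0 zs, hQ⟩, ⟨⟨hwne, ?_, Qs'⟩, ?_⟩, size_w hM hw⟩
    · intro y hy
      obtain ⟨a, ha, b, hb, rfl⟩ := mem_prod.1 hy
      exact pair_mem_prod.2 ⟨A0w ha, by rw [mem_singleton.1 hb]; exact hz⟩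
    · rw [sat_phi0]
      intro a ha b _
      refine ⟨a, ha, fun s _ h1 h2 => absurd (pair_mem_prod.1 h2).1 ?_⟩
      rw [mem_singleton.1 (pair_mem_prod.1 h1).2]; exact zA0
  rintro ⟨-, hap⟩
  obtain ⟨N, ⟨⟨hNA, -, hNP⟩, ⟨-, hN⟩, -⟩, f1, -, f2, -, e1, e2, e3⟩ := hap _ _ _ m0 m1 m2
    ⟨A0w, fun x hx y _ => ⟨fun h => absurd h (notMem_empty _), fun h =>
      absurd (mem_singleton.1 (pair_mem_prod.1 h).1 ▸ hx) zA0⟩, fun _ _ _ => Iff.rfl⟩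
    ⟨A0w, fun x _ y hy => ⟨fun h => absurd h (notMem_empty _), fun h =>
      absurd (mem_singleton.1 (pair_mem_prod.1 h).2 ▸ hy) zA0⟩, fun _ _ _ => Iff.rfl⟩
  obtain ⟨F1, F1a, F1b, -⟩ := e1.1.exists_fun
  obtain ⟨F2, F2a, F2b, -⟩ := e2.1.exists_fun
  rw [sat_phi0] at hN
  obtain ⟨r, hr, hN'⟩ := hN _ (F1b z hz) _ (F2b z hz)
  obtain ⟨t, ht, ta⟩ := sep_mem hM (RD.app 0 1 2) (v := zl [r, N.P])
    (zl_mem hM (by simp [hNP, hM.trans _ hNA r hr])) (omega_mem hM)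
  obtain ⟨x, hx, hxt⟩ := hT' t ht (fun y hy => ((ta y).1 hy).1)
  have hxA : γ x ∈ A0 := (A0b _).2 ⟨x, hx, rfl⟩
  have p1 : pair (γ x) (F1 (γ x)) ∈ f1 := (F1a _ _).2 ⟨γb x hx, rfl⟩
  have p2 : pair (γ x) (F1 (γ x)) ∈ f2 := (e3 _ hxA _).1 p1
  refine hN' (F1 (γ x)) (F1b _ (γb x hx))
    ((e1.2.1 z _ _ _ ((F1a _ _).2 ⟨hz, rfl⟩) p1).1 (pair_mem_prod.2 ⟨mem_singleton.2 rfl, hxA⟩))
    ((e2.2.1 _ z _ _ p2 ((F2a _ _).2 ⟨hz, rfl⟩)).1 (pair_mem_prod.2 ⟨hxA, mem_singleton.2 rfl⟩))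
    fun n => ?_
  rw [← e1.2.2 n _ _ p1]
  have h1 : pair (nat n) r ∈ N.P ↔ nat n ∈ t :=
    ⟨fun h => (ta _).2 ⟨nat_mem_omega n, h⟩, fun h => ((ta _).1 h).2⟩
  rw [h1, ← hxt _ (nat_mem_omega n)]
  exact (Qb _ (nat_mem_omega n) x hx).symm

end Pool.Agent.H30Z.AP
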