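import Pool.Agent.H30Z.AP.Omega1

/-! Forcing CH and its negation, and the main theorem. -/

namespace Pool.Agent.H30Z.AP

open CohenE ZFSet Forc

section General

variable (P : Type) [Preorder P] [OrderTop P]

/-- the requirements common to both forcings -/
def common : Set (Req P) :=
  {clos fun _ => io P (chk w1), clos fun l => io P (chk (toZF (fg (lv l 0)))), reqA P} ∪
    Set.range (reqB P)

variable {P}

theorem exists_good (hP : Cov P) (𝓡 : Set (Req P)) (hc : 𝓡.Countable) (hR : ∀ R ∈ 𝓡, R.Dense) :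
    ∃ (N : Set (Nm P)) (G : Set P), Pair N G ∧ chk w1 ∈ Gr N ∧
      IsOmega1 (Gnd N) (pi N (chk w1)) ∧ IsOmega1 (Ext N G) (pi N (chk w1)) ∧
      (∀ a ∈ pi N (chk w1), ∃ x, nm P x ∈ N ∧ a = pi N (chk (e1 x))) ∧
      ∀ R ∈ 𝓡, Meets N G R := by
  obtain ⟨N, G, h, h'⟩ := exists_pair (common P ∪ 𝓡)
    (((Set.toFinite _).countable.union (Set.countable_range _)).union hc) (by
      rintro R (((rfl | rfl | rfl) | ⟨n, rfl⟩) | hR')
      · exact clos_dense _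
      · exact clos_dense _
      · exact reqA_dense hP
      · exact reqB_dense n
      · exact hR R hR')
  have hw : chk w1 ∈ Gr N :=
    (h' (clos fun _ => io P (chk w1)) (Or.inl (Or.inl (Or.inl rfl)))).clos [] (by simp)
  have h1 := omega1_both h hw (h' _ (Or.inl (Or.inl (Or.inr (Or.inr rfl)))))
    (fun n => h' _ (Or.inl (Or.inr ⟨n, rfl⟩)))
  refine ⟨N, G, h, hw, h1.1, h1.2, fun a ha => ?_, fun R hR => h' R (Or.inr hR)⟩
  obtain ⟨σ, hσ, rfl⟩ : a ∈ Gnd N := ext_trans _ h1.1.1 a ha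
  have h5 : toZF σ ∈ w1 := by
    rw [← toZF_chk w1]
    exact (h.pi_mem_iff hσ hw).1 ha
  obtain ⟨x, hx⟩ := e1_surj h5
  have h6 := (h' (clos fun l => io P (chk (toZF (fg (lv l 0)))))
    (Or.inl (Or.inl (Or.inr (Or.inl rfl))))).clos [io P σ] (by
      intro x hx
      rw [List.mem_singleton.1 hx]; exact hσ)
  have h7 : nm P x ∈ N := by
    change io P (chk (toZF (fg (io P σ)))) ∈ N at h6
    rw [fg_io, ← hx] at h6
    exact h6
  refine ⟨x, h7, (h.pi_eq_iff hσ h7).2 ?_⟩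
  rw [toZF_chk, hx]

end General

/-! ### Forcing CH -/

abbrev Pc : Type := Col X1 (Set ℕ)

noncomputable def TN : Nm Pc :=
  .mk {y : Pc × X1 × ℕ // ∃ t, y.1.1 y.2.1 = some t ∧ y.2.2 ∈ t}
    (fun y => opN (nm Pc y.1.2.1) (natN y.1.2.2)) (fun y => y.1.1)

def reqC : Req Pc := fun l q τ => ∃ x t, τ = nm Pc x ∧ q.1 x = some t ∧
  ∀ n, (n ∈ t → FMem (natN n) (lv l 0) q) ∧ (n ∉ t → ∀ r, r ≤ q → ¬ FMem (natN n) (lv l 0) r)

theorem reqC_dense : reqC.Dense := by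
  intro l p
  obtain ⟨q, hq, hq'⟩ := (col_closed X1 (Set ℕ)).baire
    (fun n => {a | FMem (natN n) (lv l 0) a ∨ ∀ r, r ≤ a → ¬ FMem (natN n) (lv l 0) r})
    (fun n a => by
      by_cases hh : ∀ r, r ≤ a → ¬ FMem (natN n) (lv l 0) r
      · exact ⟨a, le_rfl, Or.inr hh⟩
      · simp only [not_forall, not_not] at hh
        obtain ⟨r, hr, hx⟩ := hh
        exact ⟨r, hr, Or.inl hx⟩) p
  obtain ⟨q', h1, x, h2⟩ := col_extend q {n | FMem (natN n) (lv l 0) q}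
  refine ⟨q', h1.trans hq, _, x, _, rfl, h2, fun n => ⟨fun h => FMem.mono h h1, fun h r hr => ?_⟩⟩
  obtain ⟨a, h3 | h3, h4⟩ := hq' n
  · exact absurd (h3.mono h4) h
  · exact h3 r (hr.trans (h1.trans h4))

theorem force_ch : ∃ (N : Set (Nm Pc)) (G : Set Pc), Pair N G ∧ chk w1 ∈ Gr N ∧
    IsOmega1 (Gnd N) (pi N (chk w1)) ∧ IsOmega1 (Ext N G) (pi N (chk w1)) ∧
    CHw (Ext N G) (pi N (chk w1)) := by
  obtain ⟨N, G, h, hw, h1, h2, -, h4⟩ := exists_good (col_closed X1 (Set ℕ)).cov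
    {clos fun _ => TN, reqC} (Set.toFinite _).countable (by
      rintro R (rfl | rfl)
      · exact clos_dense _
      · exact reqC_dense)
  have hT : TN ∈ N := (h4 (clos fun _ => TN) (Or.inl rfl)).clos [] (by simp)
  refine ⟨N, G, h, hw, h1, h2, _, ⟨TN, hT, rfl⟩, ?_⟩
  rintro _ ⟨ρ, hρ, rfl⟩ -
  obtain ⟨q, hq, _, hx, x, t, rfl, h5, h6⟩ := h4 reqC (Or.inr rfl) [ρ] (by simpa using hρ)
  refine ⟨_, pi_e1_mem h hw hx, fun m hm => ?_⟩
  obtain ⟨n, rfl⟩ := mem_omega.1 hm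
  have a1 : pair (pi N (chk (e1 x))) (nat n) ∈ val N G TN ↔ n ∈ t := by
    constructor
    · intro hh
      obtain ⟨⟨⟨p, x', n'⟩, t', b1, b2⟩, b3, b4, b5⟩ := mem_val.1 hh
      obtain ⟨c1, c2⟩ := h.core.op_comp b3
      have b6 := b5.trans (h.core.val_op c1 c2)
      rw [pair_inj, val_nm h, h.core.val_nat] at b6
      obtain rfl := pi_e1_inj h hx c1 b6.1
      obtain rfl := nat_inj b6.2
      obtain ⟨r, -, d1, d2⟩ := h.core.filt.dir q hq p b4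
      have := (d1 x t h5).symm.trans (d2 x t' b1)
      rw [Option.some.inj this]; exact b2
    · intro hh
      refine mem_val.2 ⟨⟨(q, x, n), t, h5, hh⟩, h.core.op_mem hx (h.core.natm n), hq, ?_⟩
      change _ = val N G (opN (nm Pc x) (natN n))
      rw [h.core.val_op hx (h.core.natm n), val_nm h, h.core.val_nat]
  rw [a1, ← h.core.val_nat, h.core.mem_iff (h.core.natm n) hρ]
  constructor
  · intro hh
    exact ⟨q, hq, (h6 n).1 hh⟩
  · rintro ⟨p, hp, hh⟩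
    by_contra hn
    obtain ⟨r, -, d1, d2⟩ := h.core.filt.dir q hq p hp
    exact (h6 n).2 hn r d1 (hh.mono d2)

/-! ### Forcing the negation of CH -/

abbrev Pk : Type := Coh (Set X1 × ℕ)

def sing (ξ : Set X1) (n : ℕ) : Pk :=
  ⟨{((ξ, n), true)}, Set.finite_singleton _, fun _ _ _ h1 h2 =>
    (Prod.mk.inj h1).2.trans (Prod.mk.inj h2).2.symm⟩

/-- the name of a Cohen real -/
def cN (ξ : Set X1) : Nm Pk := .mk ℕ natN (sing ξ)

noncomputable def xi (τ : Nm Pk) : Set X1 := (coh_fresh (DD τ) (DD_down τ)).choose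

def reqE : Req Pk := fun l q _ => ∀ x, lv l 1 = nm Pk x → ∃ n,
  (q ∈ DD (lv l 0) n x ∧ ((xi (lv l 0), n), false) ∈ q.1) ∨
    ((∀ r, r ≤ q → r ∉ DD (lv l 0) n x) ∧ ((xi (lv l 0), n), true) ∈ q.1)

theorem reqE_dense : reqE.Dense := by
  intro l p
  by_cases h : ∃ x, lv l 1 = nm Pk x
  · obtain ⟨x, hx⟩ := h
    obtain ⟨q, hq, h'⟩ := (coh_fresh (DD (lv l 0)) (DD_down _)).choose_spec x p
    refine ⟨q, hq, emptyN, fun y hy => ?_⟩
    obtain rfl := nm_inj (hx.symm.trans hy)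
    exact h'
  · exact ⟨p, le_rfl, emptyN, fun y hy => absurd ⟨y, hy⟩ h⟩

theorem force_not_ch : ∃ (N : Set (Nm Pk)) (G : Set Pk), Pair N G ∧ chk w1 ∈ Gr N ∧
    IsOmega1 (Gnd N) (pi N (chk w1)) ∧ IsOmega1 (Ext N G) (pi N (chk w1)) ∧
    ¬ CHw (Ext N G) (pi N (chk w1)) := by
  obtain ⟨N, G, h, hw, h1, h2, h3, h4⟩ := exists_good (coh_cov (Set X1 × ℕ))
    {clos fun l => cN (xi (lv l 0)), reqE} (Set.toFinite _).countable (by
      rintro R (rfl | rfl)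
      · exact clos_dense _
      · exact reqE_dense)
  refine ⟨N, G, h, hw, h1, h2, ?_⟩
  rintro ⟨_, ⟨τ, hτ, rfl⟩, hT⟩
  have hc : cN (xi τ) ∈ N :=
    (h4 (clos fun l => cN (xi (lv l 0))) (Or.inl rfl)).clos [τ] (by simpa using hτ)
  have a1 : ∀ z, z ∈ val N G (cN (xi τ)) ↔ ∃ n, sing (xi τ) n ∈ G ∧ z = nat n := by
    intro z
    rw [Forc.mem_val]
    constructor
    · rintro ⟨n, -, b1, b2⟩
      exact ⟨n, b1, b2.trans (h.core.val_nat n)⟩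
    · rintro ⟨n, b1, b2⟩
      exact ⟨n, h.core.natm n, b1, b2.trans (h.core.val_nat n).symm⟩
  obtain ⟨a, ha, h5⟩ := hT _ ⟨_, hc, rfl⟩ (fun z hz => by
    obtain ⟨n, -, rfl⟩ := (a1 z).1 hz
    exact nat_mem_omega n)
  obtain ⟨x, hx, rfl⟩ := h3 a ha
  obtain ⟨q, hq, _, -, h6⟩ := h4 reqE (Or.inr rfl) [τ, nm Pk x] (by simp [hτ, hx])
  obtain ⟨n, ⟨b1, b2⟩ | ⟨b1, b2⟩⟩ := h6 x rfl
  · obtain ⟨m, c1, c2⟩ := (a1 _).1 ((h5 _ (nat_mem_omega n)).1
      ((mem_DD h hτ hx n).2 ⟨q, hq, b1⟩))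
    obtain rfl := nat_inj c2
    obtain ⟨r, -, d1, d2⟩ := h.core.filt.dir q hq _ c1
    exact absurd (r.2.2 _ _ _ (d1 b2) (d2 rfl)) (by simp)
  · have c1 : sing (xi τ) n ∈ G := h.core.filt.up q hq _ (by
      rintro _ rfl
      exact b2)
    obtain ⟨p, hp, c2⟩ := (mem_DD h hτ hx n).1 ((h5 _ (nat_mem_omega n)).2
      ((a1 _).2 ⟨n, c1, rfl⟩))
    obtain ⟨r, -, d1, d2⟩ := h.core.filt.dir q hq p hp
    exact b1 r d1 (DD_down _ _ _ _ _ c2 d2)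

theorem main : ∃ V W : Set ZFSet.{0}, CTM V ∧ CTM W ∧ V ⊆ W ∧
    (∀ x : ZFSet.{0}, x.IsOrdinal → (x ∈ V ↔ x ∈ W)) ∧
    ∃ φ : IFml, Closed 0 φ ∧ code φ ∈ V ∧ ¬ (Aleph1InSpec V φ ↔ Aleph1InSpec W φ) := by
  by_cases hch : CHw Set.univ w1
  · obtain ⟨N, G, h, hw, h1, h2, h3⟩ := force_not_ch
    obtain ⟨j0, a0, j1, a1, z, hg⟩ := gad_gnd h hw
    refine ⟨_, _, h.ctm_gnd, h.ctm_ext, h.subset, h.same_ord, phi0, phi0_closed,
      code_mem h.ctm_gnd, fun hh => ?_⟩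
    exact not_ap_of_ch h.ctm_gnd h1 a0 hg ((ch_gnd h hw).2 hch)
      (hh.2 (ap_of_not_ch h.ctm_ext h2 (h.subset a0) (h.subset a1) hg h3))
  · obtain ⟨N, G, h, hw, h1, h2, h3⟩ := force_ch
    obtain ⟨j0, a0, j1, a1, z, hg⟩ := gad_gnd h hw
    refine ⟨_, _, h.ctm_gnd, h.ctm_ext, h.subset, h.same_ord, phi0, phi0_closed,
      code_mem h.ctm_gnd, fun hh => ?_⟩
    exact not_ap_of_ch h.ctm_ext h2 (h.subset a0) hg h3
      (hh.1 (ap_of_not_ch h.ctm_gnd h1 a0 a1 hg fun hc => hch ((ch_gnd h hw).1 hc)))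

end Pool.Agent.H30Z.AP
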