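import Pool.Agent.H30Z.AP.Inside2
import Pool.Agent.H30Z.Forc.Posets

/-! `ω₁` of the ground model and of the extension. -/

namespace Pool.Agent.H30Z.AP

open CohenE ZFSet Forc

/-- the true `ω₁` -/
noncomputable def w1 : ZFSet.{0} := (Ordinal.omega 1).toZFSet

/-- a small type indexing `ω₁` -/
def X1 : Type := Shrink.{0} w1

noncomputable def e1 (i : X1) : ZFSet.{0} := ((equivShrink w1).symm i).1

theorem e1_mem (i : X1) : e1 i ∈ w1 := ((equivShrink w1).symm i).2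

theorem e1_inj : Function.Injective e1 := fun _ _ h =>
  (equivShrink w1).symm.injective (Subtype.ext h)

theorem e1_surj {x : ZFSet.{0}} (hx : x ∈ w1) : ∃ i, e1 i = x :=
  ⟨equivShrink w1 ⟨x, hx⟩, by simp [e1]⟩

theorem mk_X1 : Cardinal.mk X1 = Cardinal.aleph 1 := by
  have := Ordinal.card_toZFSet (Ordinal.omega 1)
  rw [Ordinal.card_omega] at this
  exact this

instance : Uncountable X1 := by
  rw [← Cardinal.aleph0_lt_mk_iff, mk_X1]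
  exact Cardinal.aleph0_lt_aleph_one

theorem exists_graph (a b : ZFSet.{0}) (G : ZFSet.{0} → ZFSet.{0}) (h : ∀ x ∈ a, G x ∈ b) :
    ∃ f, f ⊆ prod a b ∧ ∀ x y, pair x y ∈ f ↔ x ∈ a ∧ y = G x := by
  refine ⟨ZFSet.sep (fun z => ∃ x, z = pair x (G x)) (prod a b), fun z hz => (mem_sep.1 hz).1,
    fun x y => ?_⟩
  rw [mem_sep, pair_mem_prod]
  constructor
  · rintro ⟨⟨h1, -⟩, x', h2⟩
    rw [pair_inj] at h2
    exact ⟨h1, by rw [h2.2, h2.1]⟩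
  · rintro ⟨h1, rfl⟩
    exact ⟨⟨h1, h x h1⟩, x, rfl⟩

theorem ctble_of_mem_w1 {a : ZFSet.{0}} (ha : a ∈ w1) : ∃ f, IsInj f a ZFSet.omega := by
  classical
  obtain ⟨o, ho, rfl⟩ := Ordinal.mem_toZFSet_iff.1 ha
  have h1 : o.toZFSet.card ≤ Cardinal.aleph0 := by
    rw [Ordinal.card_toZFSet, ← Order.lt_succ_iff, Cardinal.succ_aleph0, ← Cardinal.lt_ord,
      Cardinal.ord_aleph]
    exact ho
  have h2 : Countable (Shrink.{0} o.toZFSet) := Cardinal.mk_le_aleph0_iff.1 h1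
  have h3 : Countable o.toZFSet := (equivShrink o.toZFSet).countable_iff.2 h2
  obtain ⟨g, hg⟩ := exists_injective_nat o.toZFSet
  obtain ⟨f, h4, h5⟩ := exists_graph o.toZFSet ZFSet.omega
    (fun x => if h : x ∈ o.toZFSet then nat (g ⟨x, h⟩) else ∅)
    (fun x hx => by simp only [dif_pos hx]; exact nat_mem_omega _)
  refine ⟨f, isInj_of_fun h4 h5 fun x hx x' hx' e => ?_⟩
  simp only [dif_pos hx, dif_pos hx'] at e
  exact Subtype.ext_iff.1 (hg (nat_inj e))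

theorem exists_gad : ∃ j0 j1 z, Gad w1 j0 j1 z := by
  classical
  obtain ⟨u⟩ : Nonempty (Option (X1 ⊕ X1) ≃ X1) := by
    rw [← Cardinal.eq]
    simp
  choose! s hs using fun (x : ZFSet.{0}) (hx : x ∈ w1) => e1_surj hx
  have sinj : ∀ x ∈ w1, ∀ x' ∈ w1, s x = s x' → x = x' := fun x hx x' hx' e => by
    rw [← hs x hx, ← hs x' hx', e]
  obtain ⟨j0, -, h0⟩ := exists_graph w1 w1 (fun x => e1 (u (some (.inl (s x)))))
    (fun _ _ => e1_mem _)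
  obtain ⟨j1, -, h1⟩ := exists_graph w1 w1 (fun x => e1 (u (some (.inr (s x)))))
    (fun _ _ => e1_mem _)
  refine ⟨j0, j1, e1 (u none), e1_mem _, fun x hx => ⟨_, e1_mem _, (h0 _ _).2 ⟨hx, rfl⟩⟩,
    fun x hx => ⟨_, e1_mem _, (h1 _ _).2 ⟨hx, rfl⟩⟩, ?_, ?_, ?_, ?_⟩
  · intro x hx x' hx' y _ y' _ a b
    rw [((h0 _ _).1 a).2, ((h0 _ _).1 b).2]
    exact ⟨fun h => by rw [h], fun h => sinj x hx x' hx' (by simpa using e1_inj h)⟩
  · intro x hx x' hx' y _ y' _ a b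
    rw [((h1 _ _).1 a).2, ((h1 _ _).1 b).2]
    exact ⟨fun h => by rw [h], fun h => sinj x hx x' hx' (by simpa using e1_inj h)⟩
  · intro x _ x' _ y _ a b
    have := ((h0 _ _).1 a).2.symm.trans ((h1 _ _).1 b).2
    simpa using e1_inj this
  · intro x _
    exact ⟨fun a => by simpa using e1_inj ((h0 _ _).1 a).2,
      fun a => by simpa using e1_inj ((h1 _ _).1 a).2⟩

theorem rd_inj : RD fun _ v => IsInj (v 0) (v 1) (v 2) :=
  ((RD.ball 0 (RD.bex 2 (RD.bex 4 (RD.isPair 2 1 0)))).and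
    ((RD.ball 1 (RD.bex 3 (RD.app 1 0 2))).and
    ((RD.ball 1 (RD.ball 3 (RD.ball 4 ((RD.app 2 1 3).imp ((RD.app 2 0 3).imp
      (RD.eq 1 0)))))).and
    (RD.ball 1 (RD.ball 2 (RD.ball 4 ((RD.app 2 0 3).imp ((RD.app 1 0 3).imp
      (RD.eq 2 1))))))))).congr fun _ _ v _ => by
    constructor
    · rintro ⟨h1, h2, h3, h4⟩
      have hs : v 0 ⊆ prod (v 1) (v 2) := fun z hz => mem_prod.2 (h1 z hz)
      refine ⟨⟨hs, fun x hx => ?_⟩, fun x x' y a b => ?_⟩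
      · obtain ⟨y, hy, h⟩ := h2 x hx
        exact ⟨y, h, fun y' h' => h3 x hx y' (pair_mem_prod.1 (hs h')).2 y hy h' h⟩
      · exact h4 x (pair_mem_prod.1 (hs a)).1 x' (pair_mem_prod.1 (hs b)).1 y
          (pair_mem_prod.1 (hs a)).2 a b
    · rintro ⟨⟨h1, h2⟩, h3⟩
      refine ⟨fun z hz => mem_prod.1 (h1 hz), fun x hx => ?_, fun x hx y _ y' _ a b => ?_,
        fun x _ x' _ y _ a b => h3 x x' y a b⟩
      · obtain ⟨y, hy, -⟩ := h2 x hx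
        exact ⟨y, (pair_mem_prod.1 (h1 hy)).2, hy⟩
      · exact (h2 x hx).unique a b

theorem rd_gad : RD fun _ v => Gad (v 0) (v 1) (v 2) (v 3) :=
  ((RD.mem 3 0).and ((RD.ball 0 (RD.bex 1 (RD.app 1 0 3))).and
    ((RD.ball 0 (RD.bex 1 (RD.app 1 0 4))).and
    ((RD.ball 0 (RD.ball 1 (RD.ball 2 (RD.ball 3 ((RD.app 3 1 5).imp ((RD.app 2 0 5).imp
      ((RD.eq 3 2).iff (RD.eq 1 0)))))))).and
    ((RD.ball 0 (RD.ball 1 (RD.ball 2 (RD.ball 3 ((RD.app 3 1 6).imp ((RD.app 2 0 6).imp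
      ((RD.eq 3 2).iff (RD.eq 1 0)))))))).and
    ((RD.ball 0 (RD.ball 1 (RD.ball 2 ((RD.app 2 0 4).imp (RD.app 1 0 5).not)))).and
    (RD.ball 0 ((RD.app 0 4 2).not.and (RD.app 0 4 3).not)))))))).congr fun _ _ _ _ => Iff.rfl

theorem rd_ch : RD fun M v => ∃ T ∈ M, ∀ r ∈ M, r ⊆ v 1 → ∃ x ∈ v 0, ∀ n ∈ v 1,
    (pair x n ∈ T ↔ n ∈ r) :=
  (RD.ex (RD.all ((RD.subset 0 3).imp (RD.bex 2 (RD.ball 4
    ((RD.app 1 0 3).iff (RD.mem 0 2))))))).congr fun _ _ _ _ => Iff.rfl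

variable {P : Type} [Preorder P] [OrderTop P] {N : Set (Nm P)} {G : Set P}

/-- names of the countable ordinals -/
noncomputable def nm (P : Type) [Preorder P] [OrderTop P] (x : X1) : Nm P := io P (chk (e1 x))

theorem nm_inj : Function.Injective (nm P) := by
  intro x y h
  have h1 := congrArg (fun σ => toZF (fg σ)) h
  simp only [nm, fg_io, toZF_chk] at h1
  exact e1_inj h1

/-- conditions forcing `(x, n) ∈ f` -/
def DD (f : Nm P) (n : ℕ) (x : X1) : Set P := {r | FMem (opN (nm P x) (natN n)) f r}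

theorem DD_down (f : Nm P) : ∀ n x (p q : P), p ∈ DD f n x → q ≤ p → q ∈ DD f n x :=
  fun _ _ _ _ h hq => FMem.mono h hq

def reqA (P : Type) [Preorder P] [OrderTop P] : Req P := fun l q τ =>
  ∃ y, τ = nm P y ∧ ∀ n r, r ≤ q → r ∈ DD (lv l 0) n y →
    ∃ x, x ≠ y ∧ ∃ r', r' ≤ r ∧ r' ∈ DD (lv l 0) n x

def reqB (P : Type) [Preorder P] [OrderTop P] (n : ℕ) : Req P := fun l q τ =>
  (∃ x, τ = nm P x ∧ τ ≠ lv l 1 ∧ q ∈ DD (lv l 0) n x) ∨
    ∀ r, r ≤ q → ∀ x, nm P x ≠ lv l 1 → r ∉ DD (lv l 0) n x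

theorem reqA_dense (h : Cov P) : (reqA P).Dense := by
  intro l p
  obtain ⟨q, hq, C, hC, h'⟩ := h X1 (DD (lv l 0)) (DD_down _) p
  obtain ⟨y, hy⟩ : ∃ y, y ∉ C := by
    by_contra hh
    exact Set.not_countable_univ (hC.mono fun y _ => by_contra fun h => hh ⟨y, h⟩)
  refine ⟨q, hq, _, y, rfl, fun n r hr hy' => ?_⟩
  obtain ⟨x, hx, h''⟩ := h' n r hr ⟨y, hy'⟩
  exact ⟨x, fun e => hy (e ▸ hx), h''⟩

theorem reqB_dense (n : ℕ) : (reqB P n).Dense := by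
  intro l p
  by_cases h : ∀ r, r ≤ p → ∀ x, nm P x ≠ lv l 1 → r ∉ DD (lv l 0) n x
  · exact ⟨p, le_rfl, emptyN, Or.inr h⟩
  · simp only [not_forall, not_not] at h
    obtain ⟨r, hr, x, h1, h2⟩ := h
    exact ⟨r, hr, _, Or.inl ⟨x, rfl, h1, h2⟩⟩

theorem val_nm (h : Pair N G) (x : X1) : val N G (nm P x) = pi N (chk (e1 x)) :=
  val_io h.core.filt _

theorem mem_DD (h : Pair N G) {f : Nm P} (hf : f ∈ N) {x : X1} (hx : nm P x ∈ N) (n : ℕ) :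
    pair (pi N (chk (e1 x))) (nat n) ∈ val N G f ↔ ∃ p ∈ G, p ∈ DD f n x := by
  rw [← val_nm h, ← h.core.val_nat, ← h.core.val_op hx (h.core.natm n)]
  exact h.core.mem_iff (h.core.op_mem hx (h.core.natm n)) hf

theorem pi_e1_mem (h : Pair N G) (hw : chk w1 ∈ Gr N) {x : X1} (hx : nm P x ∈ N) :
    pi N (chk (e1 x)) ∈ pi N (chk w1) := by
  rw [h.pi_mem_iff hx hw, toZF_chk, toZF_chk]
  exact e1_mem x

theorem pi_e1_inj (h : Pair N G) {x y : X1} (hx : nm P x ∈ N) (hy : nm P y ∈ N)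
    (e : pi N (chk (e1 x)) = pi N (chk (e1 y))) : x = y := by
  rw [h.pi_eq_iff hx hy, toZF_chk, toZF_chk] at e
  exact e1_inj e

theorem not_ctble (h : Pair N G) (hw : chk w1 ∈ Gr N) (hA : Meets N G (reqA P))
    (hB : ∀ n, Meets N G (reqB P n)) : ¬ CtbleIn (Ext N G) (pi N (chk w1)) := by
  rintro ⟨_, ⟨f, hf, rfl⟩, hinj⟩
  obtain ⟨q, hq, _, hy, y, rfl, h1⟩ := hA [f] (by simpa using hf)
  obtain ⟨m, hm, -⟩ := hinj.1.2 _ (pi_e1_mem h hw hy)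
  obtain ⟨n, rfl⟩ := mem_omega.1 (pair_mem_prod.1 (hinj.1.1 hm)).2
  obtain ⟨p, hp, h2⟩ := (mem_DD h hf hy n).1 hm
  obtain ⟨q', hq', τ, hτ, ⟨x, rfl, h3, h4⟩ | h3⟩ := hB n [f, nm P y] (by simp [hf, hy])
  · have h5 := (mem_DD h hf hτ n).2 ⟨q', hq', h4⟩
    exact h3 (congrArg (nm P) (pi_e1_inj h hτ hy (hinj.2 _ _ _ h5 hm)))
  · obtain ⟨r, -, a, b, c⟩ := h.core.filt.dir3 hq hp hq'
    obtain ⟨x, hx, r', h4, h5⟩ := h1 n r a (DD_down _ _ _ _ _ h2 b)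
    exact h3 r' (h4.trans c) x (fun e => hx (nm_inj e)) h5

theorem omega1_both (h : Pair N G) (hw : chk w1 ∈ Gr N) (hA : Meets N G (reqA P))
    (hB : ∀ n, Meets N G (reqB P n)) :
    IsOmega1 (Gnd N) (pi N (chk w1)) ∧ IsOmega1 (Ext N G) (pi N (chk w1)) := by
  have h1 : pi N (chk w1) ∈ Gnd N := ⟨_, hw, rfl⟩
  have h2 : (pi N (chk w1)).IsOrdinal := by
    rw [h.pi_ordinal hw, toZF_chk]
    exact isOrdinal_toZFSet _
  have h3 := not_ctble h hw hA hB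
  have h4 : ∀ x ∈ pi N (chk w1), CtbleIn (Gnd N) x := by
    intro x hx
    obtain ⟨σ, hσ, rfl⟩ : x ∈ Gnd N := ext_trans _ h1 x hx
    have h5 : toZF σ ∈ w1 := by
      rw [← toZF_chk w1]
      exact (h.pi_mem_iff hσ hw).1 hx
    obtain ⟨f, hf⟩ := ctble_of_mem_w1 h5
    have h6 := (h.transfer_list rd_inj.ex (l := [σ, omegaN]) (by
      simp [hσ, h.ground.omegam])).2 ⟨f, trivial, by
        change IsInj f (toZF σ) (val _ _ omegaN)
        rw [core_univ.val_omega]; exact hf⟩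
    obtain ⟨g, hg, hg'⟩ := h6
    refine ⟨g, hg, ?_⟩
    change IsInj g (pi N σ) (val _ _ omegaN) at hg'
    rw [h.ground.val_omega] at hg'
    exact hg'
  have h5 : ∀ x, CtbleIn (Gnd N) x → CtbleIn (Ext N G) x := fun x ⟨f, hf, hf'⟩ =>
    ⟨f, h.subset hf, hf'⟩
  exact ⟨⟨h1, h2, fun hh => h3 (h5 _ hh), h4⟩, ⟨h.subset h1, h2, h3, fun x hx => h5 x (h4 x hx)⟩⟩

theorem gad_gnd (h : Pair N G) (hw : chk w1 ∈ Gr N) :
    ∃ j0 ∈ Gnd N, ∃ j1 ∈ Gnd N, ∃ z, Gad (pi N (chk w1)) j0 j1 z := by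
  obtain ⟨j0, j1, z, hg⟩ := exists_gad
  have h1 := (h.transfer_list (rd_gad.ren (fun i => match i with
    | 0 => 3
    | 1 => 2
    | 2 => 1
    | _ => 0)).ex.ex.ex (l := [chk w1]) (by simp [hw])).2 ⟨j0, trivial, j1, trivial, z, trivial, by
      change Gad (toZF (chk w1)) j0 j1 z
      rw [toZF_chk]; exact hg⟩
  obtain ⟨a, ha, b, hb, c, -, hc⟩ := h1
  exact ⟨a, ha, b, hb, c, hc⟩

theorem ch_gnd (h : Pair N G) (hw : chk w1 ∈ Gr N) :
    CHw (Gnd N) (pi N (chk w1)) ↔ CHw Set.univ w1 := by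
  have h1 := h.transfer_list rd_ch (l := [chk w1, omegaN]) (by simp [hw, h.ground.omegam])
  have e1 : pi N (lv [chk w1, omegaN] 1) = ZFSet.omega := h.ground.val_omega
  have e2 : toZF (lv [chk w1, omegaN] 1) = ZFSet.omega := core_univ.val_omega
  have e3 : toZF (lv [chk w1, omegaN] 0) = w1 := toZF_chk _
  simp only [e1, e2, e3] at h1
  exact h1

end Pool.Agent.H30Z.AP
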